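import Pool.Agent.Lib.MP_72b724_gt.Interfaces

/-!
# MP_72b724_gt, module HTPY (helper39)

An equivariant chain map, composed with the map given by an equivariant map of vertices, is
homotopic to the identity; the conclusion for invariant cocycles.
-/

open scoped BigOperators

namespace Pool.Agent.Lib.MP_72b724_gt.H39

open Pool.Agent.Lib.MP_72b724_gt

noncomputable section

theorem δ_apply (F : FSet) {m : ℕ} (f : Bdd (F.X m)) (x : F.X (m + 1)) :
    (F.δ f).1 x = ∑ i : Fin (m + 2), (-1 : ℝ) ^ (i : ℕ) * f.1 (F.d i x) := by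
  have h : ∀ s : Finset (Fin (m + 2)),
      ((∑ i ∈ s, ((-1 : ℝ) ^ (i : ℕ)) • Bdd.pull (F.d i)) f).1 x =
        ∑ i ∈ s, (-1 : ℝ) ^ (i : ℕ) * f.1 (F.d i x) := by
    classical
    intro s
    induction s using Finset.induction_on with
    | empty => simp
    | insert a s ha ih =>
      rw [Finset.sum_insert ha, Finset.sum_insert ha, LinearMap.add_apply, ← ih]
      rfl
  exact h Finset.univ

/-- The double faces cancel. -/
theorem sum_dd (F : FSet) {m : ℕ} (q : F.X m → ℝ) (x : F.X (m + 2)) :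
    ∑ i : Fin (m + 3), (-1 : ℝ) ^ (i : ℕ) *
      ∑ j : Fin (m + 2), (-1 : ℝ) ^ (j : ℕ) * q (F.d j (F.d i x)) = 0 := by
  simp only [Finset.mul_sum]
  rw [← Finset.sum_product' (s := Finset.univ) (t := Finset.univ)
    (f := fun (i : Fin (m + 3)) (j : Fin (m + 2)) =>
      (-1 : ℝ) ^ (i : ℕ) * ((-1 : ℝ) ^ (j : ℕ) * q (F.d j (F.d i x))))]
  refine Finset.sum_involution
    (fun (a : Fin (m + 3) × Fin (m + 2)) _ =>
      if h : (a.1 : ℕ) ≤ a.2 then (a.2.succ, (⟨(a.1 : ℕ), by omega⟩ : Fin (m + 2)))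
      else (a.2.castSucc, (⟨(a.1 : ℕ) - 1, by omega⟩ : Fin (m + 2)))) ?_ ?_ ?_ ?_
  · rintro ⟨i, j⟩ -
    by_cases h : (i : ℕ) ≤ j
    · simp only [h, dite_true]
      have hdd := F.dd (⟨(i : ℕ), by omega⟩ : Fin (m + 2)) j (by simpa [Fin.le_def] using h) x
      have hi : (⟨(i : ℕ), by omega⟩ : Fin (m + 2)).castSucc = i := Fin.ext rfl
      rw [hi] at hdd
      rw [hdd]
      simp only [Fin.val_succ]
      ring
    · simp only [h, dite_false]
      have hdd := F.dd j (⟨(i : ℕ) - 1, by omega⟩ : Fin (m + 2))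
        (by simp only [Fin.le_def]; omega) x
      have hi : (⟨(i : ℕ) - 1, by omega⟩ : Fin (m + 2)).succ = i := Fin.ext (by simp; omega)
      rw [hi] at hdd
      rw [← hdd]
      have hp : (-1 : ℝ) ^ (i : ℕ) = (-1 : ℝ) ^ ((i : ℕ) - 1) * (-1) := by
        rw [← pow_succ]
        congr 1
        omega
      rw [hp]
      simp only [Fin.val_castSucc]
      ring
  · rintro ⟨i, j⟩ - hne heq
    by_cases h : (i : ℕ) ≤ j
    · simp only [h, dite_true, Prod.mk.injEq, Fin.ext_iff, Fin.val_succ] at heq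
      omega
    · simp only [h, dite_false, Prod.mk.injEq, Fin.ext_iff, Fin.val_castSucc] at heq
      omega
  · intro a _
    exact Finset.mem_univ _
  · rintro ⟨i, j⟩ -
    by_cases h : (i : ℕ) ≤ j
    · have h2 : ¬ ((j : ℕ) + 1 ≤ (i : ℕ)) := by omega
      simp [h, h2]
    · have h2 : (j : ℕ) ≤ (i : ℕ) - 1 := by omega
      have h3 : (i : ℕ) - 1 + 1 = i := by omega
      simp only [h, dite_false, Fin.val_castSucc, h2, dite_true, Fin.succ_mk, h3]

/-- The coboundary of bounded cochains of a simplicial set. -/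
def dl (S : SimpSet) (m : ℕ) : Bdd (S.X m) →ₗ[ℝ] Bdd (S.X (m + 1)) := S.toF.δ

theorem dl_apply (S : SimpSet) {m : ℕ} (f : Bdd (S.X m)) (x : S.X (m + 1)) :
    (dl S m f).1 x = ∑ i : Fin (m + 2), (-1 : ℝ) ^ (i : ℕ) * f.1 (S.d i x) :=
  δ_apply S.toF f x

section

variable {Γ : Type} [Group Γ] {S : SimpSet} (A : S.Act Γ)

theorem tr_mul (g h : Γ) {m : ℕ} (x : S.X m) : A.tr (g * h) x = A.tr g (A.tr h x) :=
  (A.act m).mul_smul g h x

theorem tr_one {m : ℕ} (x : S.X m) : A.tr 1 x = x :=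
  (A.act m).one_smul x

theorem d_tr (g : Γ) {m : ℕ} (i : Fin (m + 2)) (x : S.X (m + 1)) :
    S.d i (A.tr g x) = A.tr g (S.d i x) := A.map_smul _ g x

theorem vtx_tr (g : Γ) {m : ℕ} (i : Fin (m + 1)) (x : S.X m) :
    S.vtx i (A.tr g x) = A.tr g (S.vtx i x) := A.map_smul _ g x

theorem vtx_d {m : ℕ} (i : Fin (m + 1)) (j : Fin (m + 2)) (x : S.X (m + 1)) :
    S.vtx i (S.d j x) = S.vtx (j.succAbove i) x := by
  unfold SimpSet.vtx SimpSet.d
  rw [S.map_comp]
  rfl

/-- The pull-back by a translation. -/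
abbrev gst (g : Γ) (m : ℕ) : Bdd (S.X m) →ₗ[ℝ] Bdd (S.X m) := Bdd.pull (fun x => A.tr g x)

theorem gst_mul (g h : Γ) {m : ℕ} (f : Bdd (S.X m)) : gst A (g * h) m f = gst A h m (gst A g m f) := by
  apply Subtype.ext
  funext x
  change f.1 (A.tr (g * h) x) = f.1 (A.tr g (A.tr h x))
  rw [tr_mul]

theorem gst_δ (g : Γ) {m : ℕ} (f : Bdd (S.X m)) :
    gst A g (m + 1) (dl S m f) = dl S m (gst A g m f) := by
  apply Subtype.ext
  funext x
  change (dl S m f).1 (A.tr g x) = _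
  rw [dl_apply, dl_apply]
  refine Finset.sum_congr rfl fun i _ => ?_
  change (-1 : ℝ) ^ (i : ℕ) * f.1 (S.d i (A.tr g x)) = (-1 : ℝ) ^ (i : ℕ) * f.1 (A.tr g (S.d i x))
  rw [d_tr]

/-- Equivariant families of functionals: the key construction. -/
theorem lift {m : ℕ} (H : S.X m → (Bdd (S.X m) →ₗ[ℝ] ℝ))
    (hH : ∀ g τ w, H (A.tr g τ) w = H τ (gst A g m w))
    (K : Bdd (S.X (m + 1)) →ₗ[ℝ] Bdd (S.X m))
    (hK : ∀ τ w, H τ (K (dl S m w)) = H τ w) :
    ∃ h : S.X m → (Bdd (S.X (m + 1)) →ₗ[ℝ] ℝ),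
      (∀ g τ f, h (A.tr g τ) f = h τ (gst A g (m + 1) f)) ∧
      ∀ τ w, h τ (dl S m w) = H τ w := by
  classical
  letI := A.act m
  let r : S.X m → S.X m := fun τ => Quotient.out (Quotient.mk (MulAction.orbitRel Γ (S.X m)) τ)
  have hr : ∀ τ, ∃ g : Γ, A.tr g (r τ) = τ := by
    intro τ
    have h1 : (MulAction.orbitRel Γ (S.X m)).r (r τ) τ :=
      Quotient.exact (Quotient.out_eq (Quotient.mk (MulAction.orbitRel Γ (S.X m)) τ))
    have h2 := (MulAction.orbitRel Γ (S.X m)).symm h1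
    exact MulAction.orbitRel_apply.1 h2
  have hrr : ∀ g τ, r (A.tr g τ) = r τ := by
    intro g τ
    have : Quotient.mk (MulAction.orbitRel Γ (S.X m)) (A.tr g τ) =
        Quotient.mk (MulAction.orbitRel Γ (S.X m)) τ :=
      Quotient.sound (MulAction.orbitRel_apply.2 ⟨g, rfl⟩)
    change Quotient.out _ = Quotient.out _
    rw [this]
  choose g hg using hr
  have hgg : ∀ b τ, g (A.tr b τ) = b * g τ := by
    intro b τ
    have h1 : A.tr (g (A.tr b τ)) (r τ) = A.tr (b * g τ) (r τ) := by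
      rw [tr_mul, hg τ]
      have := hg (A.tr b τ)
      rw [hrr] at this
      exact this
    have h2 : A.tr ((b * g τ)⁻¹ * g (A.tr b τ)) (r τ) = r τ := by
      rw [tr_mul, h1, ← tr_mul, inv_mul_cancel, tr_one]
    have h3 := A.free _ _ h2
    exact (inv_mul_eq_one.1 h3).symm
  refine ⟨fun τ => (H (r τ)).comp (K.comp (gst A (g τ) (m + 1))), ?_, ?_⟩
  · intro b τ f
    change H (r (A.tr b τ)) (K (gst A (g (A.tr b τ)) (m + 1) f)) =
      H (r τ) (K (gst A (g τ) (m + 1) (gst A b (m + 1) f)))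
    rw [hrr, hgg, gst_mul]
  · intro τ w
    change H (r τ) (K (gst A (g τ) (m + 1) (dl S m w))) = H τ w
    rw [gst_δ, hK, ← hH, hg]

end

theorem htpy : HtpyStatement := by
  intro D c Γ _ S A X _ hbc a ha1 haeq hach Λ hΛ φ hφ hinv
  have hbc' : ∃ (k₀ : Bdd (S.X 0) →ₗ[ℝ] ℝ) (k : ∀ m : ℕ, Bdd (S.X (m + 1)) →ₗ[ℝ] Bdd (S.X m)),
      (∀ f : Bdd (S.X 0), k 0 (dl S 0 f) + Bdd.const (k₀ f) = f) ∧
      (∀ m < D + 1, ∀ f : Bdd (S.X (m + 1)), k (m + 1) (dl S (m + 1) f) + dl S m (k m f) = f) := by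
    obtain ⟨k₀, k, -, -, -, hk0, hk⟩ := hbc
    exact ⟨k₀, k, hk0, hk⟩
  obtain ⟨k₀, k, hk0, hk⟩ := hbc'
  -- the difference functionals
  let Df : ∀ m : ℕ, S.X m → (Bdd (S.X m) →ₗ[ℝ] ℝ) := fun m τ =>
    { toFun := fun f => f.1 τ - (a m f).1 (fun i => Λ (S.vtx i τ))
      map_add' := fun f f' => by
        rw [map_add]
        change (f.1 τ + f'.1 τ) - ((a m f).1 _ + (a m f').1 _) = _
        ring
      map_smul' := fun t f => by
        rw [map_smul]
        change t * f.1 τ - t * (a m f).1 _ = t * (f.1 τ - (a m f).1 _)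
        ring }
  have hDdef : ∀ m τ f, Df m τ f = f.1 τ - (a m f).1 (fun i => Λ (S.vtx i τ)) := fun _ _ _ => rfl
  have hDeq : ∀ m ≤ D + 1, ∀ g τ f, Df m (A.tr g τ) f = Df m τ (gst A g m f) := by
    intro m hm g τ f
    rw [hDdef, hDdef, haeq m hm g f]
    have e : (fun i => Λ (S.vtx i (A.tr g τ))) = fun i => g • Λ (S.vtx i τ) := by
      funext i
      rw [vtx_tr, hΛ]
    rw [e]
    rfl
  have hDδ : ∀ m ≤ D, ∀ (x : S.X (m + 1)) (f : Bdd (S.X m)),
      Df (m + 1) x (dl S m f) =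
        ∑ i : Fin (m + 2), (-1 : ℝ) ^ (i : ℕ) * Df m (S.d i x) f := by
    intro m hm x f
    have e1 : a (m + 1) (dl S m f) = (tupF X).δ (a m f) := hach m hm f
    rw [hDdef, e1, dl_apply, δ_apply (tupF X), ← Finset.sum_sub_distrib]
    refine Finset.sum_congr rfl fun i _ => ?_
    have e : ((tupF X).d i fun i => Λ (S.vtx i x)) = fun j => Λ (S.vtx j (S.d i x)) := by
      funext j
      change Λ (S.vtx (i.succAbove j) x) = _
      rw [vtx_d]
    rw [hDdef, mul_sub, e]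
  -- the functionals `h`
  have key : ∀ m ≤ D, ∃ h : S.X m → (Bdd (S.X (m + 1)) →ₗ[ℝ] ℝ),
      (∀ g τ f, h (A.tr g τ) f = h τ (gst A g (m + 1) f)) ∧
      ∀ (x : S.X (m + 1)) (f : Bdd (S.X m)),
        ∑ i : Fin (m + 2), (-1 : ℝ) ^ (i : ℕ) * h (S.d i x) (dl S m f) =
          Df (m + 1) x (dl S m f) := by
    intro m
    induction m with
    | zero =>
      intro _
      obtain ⟨h, h1, h2⟩ := lift A (Df 0) (hDeq 0 (by omega)) (k 0) (by
        intro τ w
        have h3 : k 0 (dl S 0 w) = w - Bdd.const (k₀ w) := eq_sub_of_add_eq (hk0 w)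
        have h4 : Df 0 τ (Bdd.const (k₀ w)) = 0 := by
          have h5 : (Bdd.const (k₀ w) : Bdd (S.X 0)) = (k₀ w) • Bdd.const 1 := by
            apply Subtype.ext
            funext x
            change k₀ w = k₀ w * 1
            ring
          rw [h5, map_smul, hDdef, ha1]
          change k₀ w • ((1 : ℝ) - 1) = 0
          simp
        rw [h3, map_sub, h4, sub_zero])
      refine ⟨h, h1, fun x f => ?_⟩
      rw [hDδ 0 (by omega)]
      refine Finset.sum_congr rfl fun i _ => ?_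
      rw [h2]
    | succ m ih =>
      intro hm
      obtain ⟨h, h1, h2⟩ := ih (by omega)
      let H : S.X (m + 1) → (Bdd (S.X (m + 1)) →ₗ[ℝ] ℝ) := fun τ =>
        Df (m + 1) τ - ∑ i : Fin (m + 2), ((-1 : ℝ) ^ (i : ℕ)) • h (S.d i τ)
      have hHdef : ∀ τ w, H τ w = Df (m + 1) τ w -
          ∑ i : Fin (m + 2), (-1 : ℝ) ^ (i : ℕ) * h (S.d i τ) w := by
        intro τ w
        change (Df (m + 1) τ - ∑ i : Fin (m + 2), ((-1 : ℝ) ^ (i : ℕ)) • h (S.d i τ)) w = _
        rw [LinearMap.sub_apply, LinearMap.sum_apply]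
        rfl
      have hHeq : ∀ g τ w, H (A.tr g τ) w = H τ (gst A g (m + 1) w) := by
        intro g τ w
        rw [hHdef, hHdef, hDeq (m + 1) (by omega)]
        congr 1
        refine Finset.sum_congr rfl fun i _ => ?_
        rw [d_tr, h1]
      have hHδ : ∀ τ w, H τ (dl S m w) = 0 := by
        intro τ w
        rw [hHdef, h2, sub_self]
      obtain ⟨h', h1', h2'⟩ := lift A H hHeq (k (m + 1)) (by
        intro τ w
        have h3 : k (m + 1) (dl S (m + 1) w) = w - dl S m (k m w) :=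
          eq_sub_of_add_eq (hk m (by omega) w)
        rw [h3, map_sub, hHδ, sub_zero])
      refine ⟨h', h1', fun x f => ?_⟩
      have h5 : ∑ i : Fin (m + 3), (-1 : ℝ) ^ (i : ℕ) * ∑ j : Fin (m + 2),
          (-1 : ℝ) ^ (j : ℕ) * h (S.d j (S.d i x)) f = 0 := sum_dd S.toF (fun y => h y f) x
      rw [hDδ (m + 1) hm]
      calc ∑ i : Fin (m + 3), (-1 : ℝ) ^ (i : ℕ) * h' (S.d i x) (dl S (m + 1) f)
          = ∑ i : Fin (m + 3), (-1 : ℝ) ^ (i : ℕ) * Df (m + 1) (S.d i x) f -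
            ∑ i : Fin (m + 3), (-1 : ℝ) ^ (i : ℕ) * ∑ j : Fin (m + 2),
              (-1 : ℝ) ^ (j : ℕ) * h (S.d j (S.d i x)) f := by
            rw [← Finset.sum_sub_distrib]
            refine Finset.sum_congr rfl fun i _ => ?_
            rw [h2', hHdef, mul_sub]
        _ = _ := by rw [h5, sub_zero]
  obtain ⟨h, h1, h2⟩ := key D le_rfl
  refine ⟨fun τ => h τ φ, ?_, ?_⟩
  · intro g τ
    change h (A.tr g τ) φ = h τ φ
    rw [h1]
    congr 1
    apply Subtype.ext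
    funext x
    exact hinv g x
  · intro x
    have h3 : dl S D (k D φ) = φ := by
      have := hk D (by omega) φ
      have h0 : dl S (D + 1) φ = 0 := hφ
      rw [h0, map_zero, zero_add] at this
      exact this
    have h4 := h2 x (k D φ)
    rw [h3, hDdef] at h4
    linarith

end

end Pool.Agent.Lib.MP_72b724_gt.H39
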